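import Pool.Agent.H30.Bern

set_option autoImplicit false

namespace Pool.Agent.Results.MP_267b52_gt.Cyl

open Set Filter Topology Cardinal TopologicalSpace

/-- The flat cylinder `ℝ/ℤ × ℝ`. -/
abbrev N : Type := AddCircle (1 : ℝ) × ℝ

/-- The covering map `ℝ² → N`, a local isometry for the flat metric. -/
def cov (p : ℝ × ℝ) : N := ((p.1 : AddCircle (1 : ℝ)), p.2)

/-- `f` is `C²` with positive definite Hessian on `U`, read in the flat charts given by `cov`. -/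
def StrictlyConvexOn (U : Set N) (f : N → ℝ) : Prop :=
  ContDiffOn ℝ 2 (f ∘ cov) (cov ⁻¹' U) ∧
    ∀ p ∈ cov ⁻¹' U, ∀ v : ℝ × ℝ, v ≠ 0 → 0 < fderiv ℝ (fderiv ℝ (f ∘ cov)) p v v

lemma card_closed : #{C : Set N // IsClosed C} ≤ 𝔠 := by
  have := (countable_countableBasis N).to_subtype
  refine (mk_le_of_injective (f := fun C => {b : countableBasis N | b.1 ⊆ C.1ᶜ}) fun C D e => ?_).trans
    (by rw [mk_set]; exact power_le_power_left two_ne_zero mk_le_aleph0)
  have k : ∀ C D : {C : Set N // IsClosed C}, {b : countableBasis N | b.1 ⊆ C.1ᶜ} =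
      {b : countableBasis N | b.1 ⊆ D.1ᶜ} → C.1ᶜ ⊆ D.1ᶜ := fun C D e x hx => by
    obtain ⟨b, h1, h2, h3⟩ := (isBasis_countableBasis N).exists_subset_of_mem_open hx C.2.isOpen_compl
    exact (e.subset (show (⟨b, h1⟩ : countableBasis N) ∈ _ from h3)) h2
  exact Subtype.ext (compl_injective ((k C D e).antisymm (k D C e.symm)))

lemma bern : ∃ V : Set N, ∀ C, IsClosed C → C ⊆ V ∨ C ⊆ Vᶜ → C.Countable := by
  have hc : #({C : Set N // IsClosed C ∧ ¬ C.Countable} ⊕ {C : Set N // IsClosed C ∧ ¬ C.Countable}) ≤ 𝔠 := by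
    have := (mk_subtype_le_of_subset (p := fun C : Set N => IsClosed C ∧ ¬ C.Countable)
      fun _ h => h.1).trans card_closed
    simpa using add_le_add this this
  obtain ⟨f, h1, h2⟩ := H30.Bern.inj_choice (I := {C : Set N // IsClosed C ∧ ¬ C.Countable} ⊕
    {C : Set N // IsClosed C ∧ ¬ C.Countable}) (Sum.elim Subtype.val Subtype.val) (by
      rintro (C | C) <;>
      · obtain ⟨g, g1, -, g3⟩ := C.2.1.exists_nat_bool_injection_of_not_countable C.2.2
        refine hc.trans (le_trans ?_ (mk_le_mk_of_subset g1))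
        simp [mk_range_eq _ g3])
  refine ⟨range (f ∘ Sum.inr), fun C c1 c2 => by_contra fun c3 => c2.elim (fun c2 => ?_) fun c2 =>
    c2 (h2 (Sum.inr ⟨C, c1, c3⟩)) ⟨_, rfl⟩⟩
  obtain ⟨t, ht⟩ := c2 (h2 (Sum.inl ⟨C, c1, c3⟩))
  cases h1 ht

theorem result : ∃ V : Set N,
    (∀ (M : Type) [TopologicalSpace M] [CompactSpace M] [ConnectedSpace M] (φ : M → N), Continuous φ →
      range φ ⊆ V → ∀ x y, φ x = φ y) ∧
    ¬ ∃ (U : Set N) (f : N → ℝ), IsOpen U ∧ V ⊆ U ∧ StrictlyConvexOn U f := by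
  obtain ⟨V, hV⟩ := bern
  refine ⟨V, fun M _ _ _ φ h1 h2 x y => (hV _ (isCompact_range h1).isClosed (Or.inl h2)).isTotallyDisconnected _
    Subset.rfl (isPreconnected_range h1) ⟨x, rfl⟩ ⟨y, rfl⟩, fun ⟨U, f, u1, u2, f1, f2⟩ => ?_⟩
  obtain ⟨y, hy⟩ : ∃ y, y ∉ Prod.snd '' Uᶜ := by
    by_contra! h
    exact not_countable_univ (((hV _ u1.isClosed_compl (Or.inr (compl_subset_compl.2 u2))).image Prod.snd).mono
      fun y _ => h y)
  have m : ∀ t, (t, y) ∈ cov ⁻¹' U := fun t => by_contra fun e => hy ⟨_, e, rfl⟩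
  have o : IsOpen (cov ⁻¹' U) := u1.preimage (by unfold cov; fun_prop)
  have d : ∀ t, HasDerivAt (fun t => fderiv ℝ (f ∘ cov) (t, y) (1, 0))
      (fderiv ℝ (fderiv ℝ (f ∘ cov)) (t, y) (1, 0) (1, 0)) t := fun t => by
    have e1 : HasFDerivAt (fderiv ℝ (f ∘ cov)) _ (t, y) :=
      (((f1.contDiffAt (o.mem_nhds (m t))).fderiv_right (m := 1) le_rfl).differentiableAt one_ne_zero).hasFDerivAt
    have e2 := (e1.comp_hasDerivAt t ((hasDerivAt_id t).prodMk (hasDerivAt_const t y))).clm_apply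
      (hasDerivAt_const t ((1 : ℝ), (0 : ℝ)))
    simpa using e2
  have s := strictMono_of_hasDerivAt_pos d fun t => f2 _ (m t) _ (by simp)
  have e : (fun p => (f ∘ cov) (p + (1, 0))) = f ∘ cov := funext fun p => by simp [cov]
  refine (s zero_lt_one).ne ?_
  have := fderiv_comp_add_right (𝕜 := ℝ) (f := f ∘ cov) (x := (0, y)) ((1 : ℝ), (0 : ℝ))
  rw [e] at this
  simpa using congrArg (· ((1 : ℝ), (0 : ℝ))) this

end Pool.Agent.Results.MP_267b52_gt.Cyl
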